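import Mathlib
import Pool.Agent.Helper48.QuaternionCA

set_option autoImplicit false

namespace Pool.Agent.Results.MP_427463_al.QuaternionQuotient

/-- A group is a CA-group if the centralizer of every non-identity element is abelian. -/
def IsCAGroup (G : Type) [Group G] : Prop :=
  ∀ g : G, g ≠ 1 → ∀ a ∈ Subgroup.centralizer {g}, ∀ b ∈ Subgroup.centralizer {g}, a * b = b * a

open Pool.Agent.Helper48.QuaternionCA in
/-- **Main result.** For every `n ≥ 3` there is a profinite CA-group with a closed abelian normal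
subgroup whose quotient is the generalized quaternion group of order `2 ^ n`. -/
theorem result (n : ℕ) (hn : 3 ≤ n) :
    ∃ (G : ProfiniteGrp.{0}) (N : Subgroup G) (_ : N.Normal),
      IsCAGroup G ∧ IsClosed (N : Set G) ∧ (∀ a ∈ N, ∀ b ∈ N, a * b = b * a) ∧
      Nonempty (G ⧸ N ≃* QuaternionGroup (2 ^ (n - 2))) := by
  obtain ⟨k, rfl⟩ : ∃ k, n = k + 3 := ⟨n - 3, by omega⟩
  have hk : k + 3 - 2 = k + 1 := by omega
  rw [hk]
  refine ⟨G k, (proj k).ker, MonoidHom.normal_ker (proj k), ?_, ?_, ?_, ?_⟩
  · intro g hg a ha b hb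
    rw [Subgroup.mem_centralizer_singleton_iff] at ha hb
    apply Subtype.ext
    exact isCA k g.1 a.1 b.1 g.2 a.2 b.2 (fun h => hg (Subtype.ext h))
      (congrArg Subtype.val ha) (congrArg Subtype.val hb)
  · exact (isClosed_g_eq_one (Q := Q k)).preimage continuous_subtype_val
  · intro a ha b hb
    have ha' : a.1.g = 1 := ha
    have hb' : b.1.g = 1 := hb
    apply Subtype.ext
    ext x
    · show (a.1 * b.1).v x = (b.1 * a.1).v x
      simp [ha', hb', add_comm]
    · show (a.1 * b.1).g = (b.1 * a.1).g
      simp [ha', hb']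
  · exact ⟨QuotientGroup.quotientKerEquivOfSurjective (proj k) (proj_surjective k)⟩

end Pool.Agent.Results.MP_427463_al.QuaternionQuotient
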